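import Mathlib
import Pool.Agent.Lib.MP_60829e_nt.TV.Sub

/-! # Substituting affine combinations of fixed numbers -/

open MvPolynomial Module

namespace MP60829e.TW

open MP60829e.TV (ev dv ev_mul ev_C ev_X dv_add dv_mul dv_C dv_sum dv_X)

variable {K R : Type} [Field K] [CommRing R] [Algebra K R] {n r : ℕ}

/-- The linear part: coordinates `∑ j, c (i, j) • t i j`. -/
noncomputable def lin (t : Fin n → Fin r → R) (c : Fin n × Fin r → K) (i : Fin n) : R :=
  ∑ j, c (i, j) • t i j

/-- The point with coordinates `u i + ∑ j, c (i, j) • t i j`. -/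
noncomputable def pt (u : Fin n → R) (t : Fin n → Fin r → R) (c : Fin n × Fin r → K)
    (i : Fin n) : R := u i + lin t c i

/-- The polynomial in the coefficients obtained by substituting `u i + ∑ j, X (i, j) t i j` for
`X i`. -/
noncomputable def sub (u : Fin n → R) (t : Fin n → Fin r → R) (f : MvPolynomial (Fin n) R) :
    MvPolynomial (Fin n × Fin r) R :=
  aeval (fun i => C (u i) + ∑ j, C (t i j) * X (i, j)) f

theorem sub_X (u : Fin n → R) (t : Fin n → Fin r → R) (i : Fin n) :
    sub u t (X i : MvPolynomial (Fin n) R) = C (u i) + ∑ j, C (t i j) * X (i, j) := aeval_X _ i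

theorem ev_sub (u : Fin n → R) (t : Fin n → Fin r → R) (c : Fin n × Fin r → K)
    (f : MvPolynomial (Fin n) R) : ev c (sub u t f) = eval (pt u t c) f := by
  induction f using MvPolynomial.induction_on with
  | C a =>
    unfold sub
    rw [algHom_C, algebraMap_eq, ev_C, eval_C]
  | add p q hp hq =>
    have h1 : sub u t (p + q) = sub u t p + sub u t q := map_add _ _ _
    rw [h1, map_add, hp, hq, map_add]
  | mul_X p i hp =>
    have h1 : sub u t (p * X i) = sub u t p * sub u t (X i) := map_mul _ _ _
    rw [h1, ev_mul, hp, map_mul, eval_X, sub_X, map_add, ev_C, map_sum]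
    congr 1
    unfold pt lin
    congr 1
    refine Finset.sum_congr rfl fun j _ => ?_
    rw [ev_mul, ev_C, ev_X, Algebra.smul_def, mul_comm]

/-- Chain rule. -/
theorem dv_sub (u : Fin n → R) (t : Fin n → Fin r → R) (c v : Fin n × Fin r → K)
    (f : MvPolynomial (Fin n) R) :
    dv c v (sub u t f) = ∑ i, eval (pt u t c) (pderiv i f) * lin t v i := by
  classical
  induction f using MvPolynomial.induction_on with
  | C a =>
    have h1 : sub u t (C a : MvPolynomial (Fin n) R) = C a := algHom_C _ a
    rw [h1, dv_C]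
    symm
    refine Finset.sum_eq_zero fun i _ => ?_
    rw [pderiv_C, map_zero, zero_mul]
  | add p q hp hq =>
    have h1 : sub u t (p + q) = sub u t p + sub u t q := map_add _ _ _
    rw [h1, dv_add, hp, hq, ← Finset.sum_add_distrib]
    refine Finset.sum_congr rfl fun i _ => ?_
    rw [map_add, map_add, add_mul]
  | mul_X p i hp =>
    have h1 : sub u t (p * X i) = sub u t p * sub u t (X i) := map_mul _ _ _
    have h3 : dv c v (sub u t (X i : MvPolynomial (Fin n) R)) = lin t v i := by
      rw [sub_X, dv_add, dv_C, zero_add, dv_sum]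
      unfold lin
      refine Finset.sum_congr rfl fun j _ => ?_
      rw [dv_mul, dv_C, zero_mul, zero_add, ev_C, dv_X, Algebra.smul_def, mul_comm]
    rw [h1, dv_mul, hp, h3, ev_sub, ev_sub, eval_X]
    have h4 : ∀ i', eval (pt u t c) (pderiv i' (p * X i)) * lin t v i' =
        eval (pt u t c) (pderiv i' p) * lin t v i' * pt u t c i +
          (if i' = i then eval (pt u t c) p * lin t v i else 0) := by
      intro i'
      rw [pderiv_mul, map_add, map_mul, map_mul, eval_X]
      split_ifs with h
      · subst h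
        rw [pderiv_X_self, map_one]
        ring
      · rw [pderiv_X_of_ne (Ne.symm h), map_zero]
        ring
    rw [Finset.sum_congr rfl fun i' _ => h4 i', Finset.sum_add_distrib, Finset.sum_ite_eq',
      if_pos (Finset.mem_univ i), Finset.sum_mul]

theorem totalDegree_lin (u : Fin n → R) (t : Fin n → Fin r → R) (i : Fin n) :
    (C (u i) + ∑ j, C (t i j) * X (i, j) : MvPolynomial (Fin n × Fin r) R).totalDegree ≤ 1 := by
  refine (totalDegree_add _ _).trans (max_le ?_ ?_)
  · rw [totalDegree_C]
    exact Nat.zero_le _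
  refine (totalDegree_finsetSum _ _).trans (Finset.sup_le fun j _ => ?_)
  refine (totalDegree_mul _ _).trans ?_
  rw [totalDegree_C, zero_add]
  by_cases hR : Nontrivial R
  · rw [totalDegree_X]
  · rw [not_nontrivial_iff_subsingleton] at hR
    have h1 : (X (i, j) : MvPolynomial (Fin n × Fin r) R) = 0 := Subsingleton.elim _ _
    rw [h1, totalDegree_zero]
    exact Nat.zero_le _

theorem totalDegree_sub (u : Fin n → R) (t : Fin n → Fin r → R) (f : MvPolynomial (Fin n) R) :
    (sub u t f).totalDegree ≤ f.totalDegree := by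
  classical
  have h1 : sub u t f = ∑ m ∈ f.support, C (coeff m f) *
      ∏ i, (C (u i) + ∑ j, C (t i j) * X (i, j) : MvPolynomial (Fin n × Fin r) R) ^ m i := by
    unfold sub
    rw [aeval_def, eval₂_eq']
    rfl
  rw [h1]
  refine (totalDegree_finsetSum _ _).trans (Finset.sup_le fun m hm => ?_)
  refine (totalDegree_mul _ _).trans ?_
  rw [totalDegree_C, zero_add]
  refine (totalDegree_finsetProd _ _).trans ?_
  have h2 := le_totalDegree hm
  rw [Finsupp.sum_fintype _ _ fun _ => rfl] at h2
  refine le_trans (Finset.sum_le_sum fun i _ => ?_) h2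
  refine (totalDegree_pow _ _).trans ?_
  calc m i * _ ≤ m i * 1 := Nat.mul_le_mul_left _ (totalDegree_lin u t i)
    _ = m i := mul_one _

theorem sub_smul (u : Fin n → R) (t : Fin n → Fin r → R) (q : K) (f : MvPolynomial (Fin n) R) :
    sub u t (q • f) = q • sub u t f := by
  unfold sub
  rw [← algebraMap_smul R q f, map_smul, algebraMap_smul]

/-- A space of dimension larger than `(n - 1) r + κ` of matrices contains a space of dimension
larger than `κ` of matrices supported in the row `i`; if the `t i j` are independent, the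
corresponding combinations form a space of the same dimension. -/
theorem row_space (t : Fin n → Fin r → R) (i : Fin n) (ht : LinearIndependent K (t i)) {κ : ℕ}
    (T : Submodule K (Fin n × Fin r → K)) (hT : (n - 1) * r + κ < finrank K T) :
    ∃ Z : Submodule K R, FiniteDimensional K Z ∧ κ < finrank K Z ∧
      ∀ z ∈ Z, ∃ v ∈ T, lin t v i = z ∧ ∀ i', i' ≠ i → lin t v i' = 0 := by
  classical
  obtain ⟨φ, hφ⟩ : ∃ φ : (Fin n × Fin r → K) →ₗ[K] ({i' : Fin n // i' ≠ i} × Fin r → K),
      φ = LinearMap.funLeft K K fun p : {i' : Fin n // i' ≠ i} × Fin r => (p.1.1, p.2) :=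
    ⟨_, rfl⟩
  have hφ' : ∀ v p, φ v p = v (p.1.1, p.2) := by
    intro v p
    rw [hφ]
    rfl
  obtain ⟨ψ, hψ⟩ : ∃ ψ : (Fin n × Fin r → K) →ₗ[K] R, ψ =
      (Fintype.linearCombination K (t i)).comp (LinearMap.funLeft K K fun j : Fin r => (i, j)) :=
    ⟨_, rfl⟩
  have hψ' : ∀ v, ψ v = lin t v i := by
    intro v
    rw [hψ]
    rfl
  obtain ⟨T0, hT0⟩ : ∃ T0 : Submodule K (Fin n × Fin r → K), T0 = T ⊓ LinearMap.ker φ :=
    ⟨_, rfl⟩
  have h1 : κ < finrank K T0 := by
    have h2 := LinearMap.finrank_range_add_finrank_ker (φ.domRestrict T)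
    have h3 : finrank K (LinearMap.range (φ.domRestrict T)) ≤ (n - 1) * r := by
      refine (Submodule.finrank_le _).trans (le_of_eq ?_)
      rw [finrank_fintype_fun_eq_card, Fintype.card_prod, Fintype.card_fin,
        Fintype.card_subtype_compl, Fintype.card_fin, Fintype.card_unique]
    have h4 : finrank K (LinearMap.ker (φ.domRestrict T)) = finrank K T0 := by
      have h5 : T0 = (LinearMap.ker (φ.domRestrict T)).map T.subtype := by
        rw [hT0]
        ext v
        rw [Submodule.mem_map, Submodule.mem_inf, LinearMap.mem_ker]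
        constructor
        · rintro ⟨hv, hv'⟩
          exact ⟨⟨v, hv⟩, hv', rfl⟩
        · rintro ⟨w, hw, rfl⟩
          exact ⟨w.2, hw⟩
      rw [h5]
      exact (LinearEquiv.finrank_eq (Submodule.equivMapOfInjective _ T.injective_subtype _))
    omega
  refine ⟨T0.map ψ, inferInstance, ?_, ?_⟩
  · have h2 : Function.Injective (ψ.domRestrict T0) := by
      rw [← LinearMap.ker_eq_bot, LinearMap.ker_eq_bot']
      rintro ⟨v, hv⟩ hv0
      have hv1 : v ∈ T ⊓ LinearMap.ker φ := by
        rw [← hT0]
        exact hv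
      have h3 : ψ v = 0 := hv0
      rw [hψ'] at h3
      have h4 := (Fintype.linearIndependent_iff.1 ht) (fun j => v (i, j)) h3
      apply Subtype.ext
      funext p
      by_cases hp : p.1 = i
      · have h5 := h4 p.2
        rw [← hp] at h5
        exact h5
      · have h5 : φ v = 0 := hv1.2
        have h6 := congrFun h5 (⟨p.1, hp⟩, p.2)
        rw [hφ'] at h6
        exact h6
    have h3 := LinearMap.finrank_range_of_inj h2
    have h4 : LinearMap.range (ψ.domRestrict T0) = T0.map ψ := by
      rw [LinearMap.range_domRestrict]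
    rw [← h4, h3]
    exact h1
  · rintro z ⟨v, hv, rfl⟩
    have hv1 : v ∈ T ⊓ LinearMap.ker φ := by
      rw [← hT0]
      exact hv
    refine ⟨v, hv1.1, (hψ' v).symm, fun i' hi' => ?_⟩
    unfold lin
    refine Finset.sum_eq_zero fun j _ => ?_
    have h5 : φ v = 0 := hv1.2
    have h6 := congrFun h5 (⟨i', hi'⟩, j)
    rw [hφ'] at h6
    have h7 : v (i', j) = 0 := h6
    rw [h7, zero_smul]

end MP60829e.TW
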