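import Mathlib
import Pool.Agent.Lib.MP_60829e_nt.TV.Grid
import Pool.Agent.Lib.MP_60829e_nt.TW.Sub
import Pool.Agent.Lib.MP_60829e_nt.SK.KeyLem

/-! # The two dimension arguments -/

open MvPolynomial Module

namespace MP60829e.TW

open MP60829e.TV (ev dv Good vals)

private theorem dv_lin {K R σ : Type} [Field K] [CommRing R] [Algebra K R] [Fintype σ] {N : ℕ}
    (c v : σ → K) (y : Fin N → K) (G : Fin N → MvPolynomial σ R) :
    dv c v (∑ k, y k • G k) = ∑ k, y k • dv c v (G k) := by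
  have h1 : ∀ s, ev c (pderiv s (∑ k, y k • G k)) = ∑ k, y k • ev c (pderiv s (G k)) := by
    intro s
    rw [map_sum, map_sum]
    refine Finset.sum_congr rfl fun k _ => ?_
    rw [← map_smul (ev c)]
    congr 1
    rw [← algebraMap_smul R (y k) (G k), ← algebraMap_smul R (y k) (pderiv s (G k)),
      Derivation.map_smul]
  unfold dv
  simp only [h1, Finset.smul_sum]
  rw [Finset.sum_comm]
  refine Finset.sum_congr rfl fun k _ => Finset.sum_congr rfl fun s _ => ?_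
  rw [smul_comm]

/-- General step: the partial derivative `x` of a nonzero relation multiplies a large space into
`L` plus a space of dimension at most `N - 1`.
PROOF. `y` = coordinates of `f` with respect to `g`, not `0`.  `T` from `Good`; `Z` from
`row_space` with `κ`; for `z ∈ Z`: `x * z = ∑ i', eval w (pderiv i' f) * lin t v i' =
dv c v (sub u t f) = ∑ k, y k • dv c v (sub u t (g k))` (`dv_sub`, linearity), so
`x * z ∈ L ⊔ vals`.  `vals = span {ev c (sub u t (g k))}` modulo `L` has dimension `≤ N - 1` since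
`∑ k, y k • ev c (sub u t (g k)) ∈ L`, `y ≠ 0`.  `Z0` = kernel of `Z → R ⧸ L`, `z ↦ x * z`, whose
range lies in the image of `vals` (`LinearMap.finrank_range_add_finrank_ker`). -/
theorem step {K R : Type} [Field K] [CommRing R] [Algebra K R] {n r N κ : ℕ} (u : Fin n → R) (t : Fin n → Fin r → R)
    (ht : ∀ i, LinearIndependent K (t i)) (L : Submodule K R) (g : Fin N → MvPolynomial (Fin n) R)
    (c : Fin n × Fin r → K) (hc : Good L (fun k => sub u t (g k)) ((n - 1) * r + κ) c)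
    (f : MvPolynomial (Fin n) R) (hf0 : f ≠ 0)
    (hf : f ∈ Submodule.span K (Set.range g)) (hL : eval (pt u t c) f ∈ L) (i : Fin n) :
    ∃ Z : Submodule K R, FiniteDimensional K Z ∧ κ + 1 < finrank K Z + N ∧
      (∀ z ∈ Z, eval (pt u t c) (pderiv i f) * z ∈ L) ∧
      ∀ z ∈ Z, z ∈ Submodule.span K (Set.range (t i)) := by
  classical
  obtain ⟨y, hy⟩ := (Submodule.mem_span_range_iff_exists_fun K).1 hf
  have hy0 : y ≠ 0 := by
    rintro rfl
    apply hf0
    rw [← hy]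
    simp
  obtain ⟨T, hT, hTg⟩ := hc
  obtain ⟨Z0, hZ0f, hZ0, hZ0v⟩ := row_space t i (ht i) T hT
  obtain ⟨x, hx⟩ : ∃ x : R, x = eval (pt u t c) (pderiv i f) := ⟨_, rfl⟩
  have hsub : sub u t f = ∑ k, y k • sub u t (g k) := by
    rw [← hy]
    unfold sub
    rw [map_sum]
    exact Finset.sum_congr rfl fun k _ => sub_smul u t (y k) (g k)
  have hev : ∑ k, y k • ev c (sub u t (g k)) ∈ L := by
    have h1 : ∑ k, y k • ev c (sub u t (g k)) = ev c (sub u t f) := by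
      rw [hsub, map_sum]
      exact Finset.sum_congr rfl fun k _ => (map_smul _ _ _).symm
    rw [h1, ev_sub]
    exact hL
  have hxz : ∀ z ∈ Z0, x * z ∈ L ⊔ vals (fun k => sub u t (g k)) c := by
    intro z hz
    obtain ⟨v, hv, hvz, hv0⟩ := hZ0v z hz
    have h1 := hTg v hv y hev
    have h2 : ∑ k, y k • dv c v (sub u t (g k)) = x * z := by
      rw [← dv_lin c v y (fun k => sub u t (g k)), ← hsub, dv_sub,
        Finset.sum_eq_single i, hvz, hx]
      · intro i' _ hi'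
        rw [hv0 i' hi', mul_zero]
      · intro hi
        exact absurd (Finset.mem_univ i) hi
    rw [← h2]
    exact h1
  -- the values modulo `L`
  obtain ⟨Φ, hΦ⟩ : ∃ Φ : (Fin N → K) →ₗ[K] R ⧸ L,
      ∀ y', Φ y' = L.mkQ (∑ k, y' k • ev c (sub u t (g k))) :=
    ⟨L.mkQ ∘ₗ Fintype.linearCombination K (fun k => ev c (sub u t (g k))), fun y' => rfl⟩
  have hΦr := Φ.finrank_range_add_finrank_ker
  rw [finrank_fintype_fun_eq_card, Fintype.card_fin] at hΦr
  have hΦk : 0 < finrank K (LinearMap.ker Φ) := by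
    have : y ∈ LinearMap.ker Φ := by
      rw [LinearMap.mem_ker, hΦ]
      exact (Submodule.Quotient.mk_eq_zero L).2 hev
    have hne : Nontrivial (LinearMap.ker Φ) :=
      ⟨⟨⟨y, this⟩, 0, fun h => hy0 (congrArg Subtype.val h)⟩⟩
    exact finrank_pos
  -- the multiplication
  obtain ⟨Ψ, hΨ⟩ : ∃ Ψ : Z0 →ₗ[K] R ⧸ L, ∀ z : Z0, Ψ z = L.mkQ (x * (z : R)) :=
    ⟨L.mkQ ∘ₗ (LinearMap.mulLeft K x) ∘ₗ Z0.subtype, fun z => rfl⟩
  have hΨr := Ψ.finrank_range_add_finrank_ker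
  have hle : finrank K (LinearMap.range Ψ) ≤ finrank K (LinearMap.range Φ) := by
    apply Submodule.finrank_mono
    rintro _ ⟨z, rfl⟩
    obtain ⟨l, hl, w, hw, hlw⟩ := Submodule.mem_sup.1 (hxz z z.2)
    obtain ⟨y', hy'⟩ := (Submodule.mem_span_range_iff_exists_fun K).1 hw
    refine ⟨y', ?_⟩
    rw [hΦ, hΨ, ← hlw, map_add]
    have h1 : L.mkQ l = 0 := (Submodule.Quotient.mk_eq_zero L).2 hl
    rw [h1, zero_add]
    exact congrArg _ hy'
  refine ⟨(LinearMap.ker Ψ).map Z0.subtype, inferInstance, ?_, ?_, ?_⟩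
  · have h4 : finrank K ((LinearMap.ker Ψ).map Z0.subtype) = finrank K (LinearMap.ker Ψ) :=
      (Submodule.equivMapOfInjective Z0.subtype Z0.injective_subtype _).finrank_eq.symm
    rw [h4]
    omega
  · rintro z ⟨w, hw, rfl⟩
    have h5 : Ψ w = 0 := hw
    rw [hΨ] at h5
    rw [← hx]
    exact (Submodule.Quotient.mk_eq_zero L).1 h5
  · rintro z ⟨w, hw, rfl⟩
    obtain ⟨v, hv, hvz, hv0⟩ := hZ0v w w.2
    change (w : R) ∈ _
    rw [← hvz]
    unfold lin
    exact Submodule.sum_mem _ fun j _ => Submodule.smul_mem _ _ (Submodule.subset_span ⟨j, rfl⟩)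

/-- PROOF. `step` with `κ = N + 6`: `finrank Z ≥ 8`; `SK.key_lem`. -/
theorem step_one {𝕜 : IntermediateField ℚ ℂ} [Algebra.IsAlgebraic ℚ 𝕜] {n r N : ℕ}
    (u : Fin n → ℂ) (t : Fin n → Fin r → ℂ) (ht : ∀ i, LinearIndependent 𝕜 (t i)) (htL : ∀ i j, t i j ∈ SK.LzOf 𝕜)
    (g : Fin N → MvPolynomial (Fin n) ℂ) (c : Fin n × Fin r → 𝕜)
    (hc : Good (SK.LgOf 𝕜) (fun k => sub u t (g k)) ((n - 1) * r + (N + 6)) c)
    (f : MvPolynomial (Fin n) ℂ) (hf0 : f ≠ 0) (hf : f ∈ Submodule.span 𝕜 (Set.range g))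
    (hL : eval (pt u t c) f ∈ SK.LgOf 𝕜) (i : Fin n) :
    ∃ q : 𝕜, eval (pt u t c) (pderiv i f) = q := by
  by_contra hx
  push Not at hx
  obtain ⟨Z, hZf, hZ, hZL, hZt⟩ := step u t ht (SK.LgOf 𝕜) g c hc f hf0 hf hL i
  have h1 : finrank 𝕜 Z ≤ 7 := by
    refine SK.key_lem Z ?_ (eval (pt u t c) (pderiv i f)) hx hZL
    intro z hz
    have h2 : Submodule.span 𝕜 (Set.range (t i)) ≤ SK.LzOf 𝕜 := by
      rw [Submodule.span_le]
      rintro _ ⟨j, rfl⟩
      exact htL i j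
    exact h2 (hZt z hz)
  omega

/-- PROOF. `step` with `L = ⊥`, `κ = N`: `finrank Z ≥ 2`, so some `z ≠ 0` with
`eval (pt u t c) (pderiv i f) * z = 0`. -/
theorem step_two {𝕜 : IntermediateField ℚ ℂ} {n r N : ℕ}
    (u : Fin n → ℂ) (t : Fin n → Fin r → ℂ) (ht : ∀ i, LinearIndependent 𝕜 (t i))
    (g : Fin N → MvPolynomial (Fin n) ℂ) (c : Fin n × Fin r → 𝕜)
    (hc : Good (⊥ : Submodule 𝕜 ℂ) (fun k => sub u t (g k)) ((n - 1) * r + N) c)
    (f : MvPolynomial (Fin n) ℂ) (hf0 : f ≠ 0) (hf : f ∈ Submodule.span 𝕜 (Set.range g))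
    (hL : eval (pt u t c) f = 0) (i : Fin n) : eval (pt u t c) (pderiv i f) = 0 := by
  obtain ⟨Z, hZf, hZ, hZL, -⟩ := step u t ht (⊥ : Submodule 𝕜 ℂ) g c hc f hf0 hf
    ((Submodule.mem_bot 𝕜).2 hL) i
  have h1 : 0 < finrank 𝕜 Z := by omega
  have : Nontrivial Z := finrank_pos_iff.1 h1
  obtain ⟨z, hz⟩ := exists_ne (0 : Z)
  have h2 := (Submodule.mem_bot 𝕜).1 (hZL z z.2)
  rcases mul_eq_zero.1 h2 with h3 | h3
  · exact h3
  · exact absurd (Subtype.ext h3) hz

end MP60829e.TW
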