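import Mathlib
import Pool.Agent.Lib.MP_60829e_nt.TV.Sparse
import Pool.Agent.Lib.MP_60829e_nt.TW.Step

/-! # From small partial derivatives to linear polynomials -/

open MvPolynomial Module

namespace MP60829e.TW

open MP60829e.TV (ev dv Good vals dl fam const_of_pderiv totalDegree_pderiv pderiv_mem_fam)

/-- No nonzero element of the span of the family vanishes at the point. -/
theorem descend {𝕜 : IntermediateField ℚ ℂ} {n r N D : ℕ} (u : Fin n → ℂ) (t : Fin n → Fin r → ℂ)
    (ht : ∀ i, LinearIndependent 𝕜 (t i)) (g : Fin N → MvPolynomial (Fin n) ℂ) (c : Fin n × Fin r → 𝕜)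
    (hc : ∀ ws : List (Fin n), ws.length ≤ D →
      Good (⊥ : Submodule 𝕜 ℂ) (fun k => sub u t (fam g ws k)) ((n - 1) * r + (N + 1)) c)
    (d : ℕ) (ws : List (Fin n)) (hws : ws.length + d ≤ D) (h : MvPolynomial (Fin n) ℂ)
    (hd : h.totalDegree ≤ d) (h0 : h ≠ 0)
    (hh : h ∈ Submodule.span 𝕜 (Set.range (fam g ws))) : eval (pt u t c) h ≠ 0 := by
  induction d generalizing ws h with
  | zero =>
    intro he
    have h1 := totalDegree_eq_zero_iff_eq_C.1 (Nat.le_zero.1 hd)
    rw [h1, eval_C] at he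
    rw [he, C_0] at h1
    exact h0 h1
  | succ d ih =>
    intro he
    have hp : ∃ j, pderiv j h ≠ 0 := by
      by_contra hcon
      push Not at hcon
      obtain ⟨a, ha⟩ := const_of_pderiv h hcon
      rw [ha, eval_C] at he
      rw [he, C_0] at ha
      exact h0 ha
    obtain ⟨j, hj⟩ := hp
    have h1 := step_two u t ht (fam g ws) c (hc ws (by omega)) h h0 hh he j
    exact ih (j :: ws) (by rw [List.length_cons]; omega) (pderiv j h)
      (totalDegree_pderiv j h hd) hj (pderiv_mem_fam g ws j h hh) h1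

/-- A good point: relations modulo `LgOf` are linear. -/
theorem linear_of_good {𝕜 : IntermediateField ℚ ℂ} [Algebra.IsAlgebraic ℚ 𝕜] {n r N D : ℕ}
    (u : Fin n → ℂ) (t : Fin n → Fin r → ℂ) (ht : ∀ i, LinearIndependent 𝕜 (t i)) (htL : ∀ i j, t i j ∈ SK.LzOf 𝕜)
    (g : Fin N → MvPolynomial (Fin n) ℂ) (c : Fin n × Fin r → 𝕜)
    (hc1 : Good (SK.LgOf 𝕜) (fun k => sub u t (g k)) ((n - 1) * r + (N + 6)) c)
    (hc2 : ∀ ws : List (Fin n), ws.length ≤ D →
      Good (⊥ : Submodule 𝕜 ℂ) (fun k => sub u t (fam g ws k)) ((n - 1) * r + (N + 1)) c)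
    (f : MvPolynomial (Fin n) ℂ) (hfD : f.totalDegree ≤ D)
    (hf : f ∈ Submodule.span 𝕜 (Set.range g)) (hL : eval (pt u t c) f ∈ SK.LgOf 𝕜) :
    ∃ (a : ℂ) (q : Fin n → 𝕜), f = C a + ∑ i, C (q i : ℂ) * X i := by
  classical
  by_cases hf0 : f = 0
  · refine ⟨0, fun _ => 0, ?_⟩
    rw [hf0]
    simp
  have hq : ∀ i, ∃ q : 𝕜, eval (pt u t c) (pderiv i f) = q := fun i =>
    step_one u t ht htL g c hc1 f hf0 hf hL i
  choose q hq using hq
  have hall : ∀ i, pderiv i f = C (q i : ℂ) := by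
    intro i
    by_contra hne
    have h0 : pderiv i f - C (q i : ℂ) ≠ 0 := sub_ne_zero.2 hne
    have hD : 1 ≤ D := by
      by_contra hD
      have h1 : f.totalDegree = 0 := by omega
      have h2 := totalDegree_eq_zero_iff_eq_C.1 h1
      have h3 : pderiv i f = 0 := by
        rw [h2]
        exact pderiv_C
      have h4 := hq i
      rw [h3, map_zero] at h4
      rw [h3, ← h4, C_0] at hne
      exact hne rfl
    obtain ⟨D', hD'⟩ : ∃ D', D = D' + 1 := ⟨D - 1, by omega⟩
    have hnil : f ∈ Submodule.span 𝕜 (Set.range (fam g [])) := by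
      refine Submodule.span_mono ?_ hf
      rintro _ ⟨k, rfl⟩
      refine ⟨k.castSucc, ?_⟩
      unfold fam
      rw [Fin.snoc_castSucc]
      rfl
    have hmem : pderiv i f - C (q i : ℂ) ∈ Submodule.span 𝕜 (Set.range (fam g [i])) := by
      refine Submodule.sub_mem _ (pderiv_mem_fam g [] i f hnil) ?_
      have h1 : (C (q i : ℂ) : MvPolynomial (Fin n) ℂ) = q i • fam g [i] (Fin.last N) := by
        unfold fam
        rw [Fin.snoc_last, ← algebraMap_smul ℂ (q i) (1 : MvPolynomial (Fin n) ℂ), smul_eq_C_mul,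
          mul_one]
        rfl
      rw [h1]
      exact Submodule.smul_mem _ _ (Submodule.subset_span ⟨_, rfl⟩)
    refine descend u t ht g c hc2 D' [i] (by
      rw [List.length_singleton]
      omega) (pderiv i f - C (q i : ℂ)) ?_ h0 hmem ?_
    · refine (MvPolynomial.totalDegree_sub _ _).trans (max_le (totalDegree_pderiv i f (by omega)) ?_)
      rw [totalDegree_C]
      exact Nat.zero_le _
    · rw [map_sub, eval_C, hq, sub_self]
  obtain ⟨a, ha⟩ := const_of_pderiv (f - ∑ i, C (q i : ℂ) * X i) (by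
    intro i
    rw [map_sub, hall, map_sum, sub_eq_zero, Finset.sum_eq_single i]
    · rw [pderiv_C_mul, pderiv_X_self, mul_one]
    · intro j _ hj
      rw [pderiv_C_mul, pderiv_X_of_ne hj, mul_zero]
    · intro h
      exact absurd (Finset.mem_univ i) h)
  refine ⟨a, q, ?_⟩
  rw [← ha]
  ring

end MP60829e.TW
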