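import Mathlib
import Pool.Agent.Lib.MP_60829e_nt.TV.ThinA
import Pool.Agent.Lib.MP_60829e_nt.TW.Down

/-! # The exceptional points of an affine grid -/

open MvPolynomial Module

namespace MP60829e.TW

open MP60829e.TV (ev dv Good vals dl fam const_of_pderiv totalDegree_pderiv pderiv_mem_fam word
  perm_word fam_perm totalDegree_fam finite_grid totalDegree_of_span good_count cst grid_card
  exists_gens' monb totalDegree_monb exists_enum span_union inj_curry to_real)

/-- The exceptional matrices for the span of the family `g`. -/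
def exc {𝕜 : IntermediateField ℚ ℂ} {n r N : ℕ} (u : Fin n → ℂ) (t : Fin n → Fin r → ℂ)
    (g : Fin N → MvPolynomial (Fin n) ℂ) (S : Finset 𝕜) : Set (Fin n × Fin r → 𝕜) :=
  {c | (∀ s, c s ∈ S) ∧ ∃ f ∈ Submodule.span 𝕜 (Set.range g), eval (pt u t c) f ∈ SK.LgOf 𝕜 ∧
    ¬ ∃ (a : ℂ) (q : Fin n → 𝕜), f = C a + ∑ i, C (q i : ℂ) * X i}

/-- Number of the exceptional matrices, raw form. -/
theorem exc_raw {𝕜 : IntermediateField ℚ ℂ} [Algebra.IsAlgebraic ℚ 𝕜] {n r N D : ℕ}
    (u : Fin n → ℂ) (t : Fin n → Fin r → ℂ) (ht : ∀ i, LinearIndependent 𝕜 (t i)) (htL : ∀ i j, t i j ∈ SK.LzOf 𝕜)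
    (g : Fin N → MvPolynomial (Fin n) ℂ) (hg : ∀ k, (g k).totalDegree ≤ D)
    (S : Finset 𝕜) (hS : S.Nonempty) :
    (exc u t g S).ncard ≤
      (N + 1) * (2 ^ (n * r) * ((n * r).factorial *
        (D * (N + 1)) ^ (n * r - ((n - 1) * r + (N + 6)))) * S.card ^ ((n - 1) * r + (N + 6))) +
      (D + 1) ^ n * ((N + 1 + 1) * (2 ^ (n * r) * ((n * r).factorial *
        (D * (N + 1 + 1)) ^ (n * r - ((n - 1) * r + (N + 1)))) *
          S.card ^ ((n - 1) * r + (N + 1)))) := by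
  classical
  have hcard : Fintype.card (Fin n × Fin r) = n * r := by
    rw [Fintype.card_prod, Fintype.card_fin, Fintype.card_fin]
  obtain ⟨U, hU⟩ : ∃ U : Set (Fin n × Fin r → 𝕜), U = {c | (∀ s, c s ∈ S) ∧
      ¬ Good (SK.LgOf 𝕜) (fun k => sub u t (g k)) ((n - 1) * r + (N + 6)) c} := ⟨_, rfl⟩
  obtain ⟨V, hV⟩ : ∃ V : (Fin n → Fin (D + 1)) → Set (Fin n × Fin r → 𝕜),
      V = fun α => {c | (∀ s, c s ∈ S) ∧ ¬ Good (⊥ : Submodule 𝕜 ℂ)
        (fun k => sub u t (fam g (word fun i => (α i : ℕ)) k)) ((n - 1) * r + (N + 1)) c} := ⟨_, rfl⟩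
  have hsub : exc u t g S ⊆ U ∪ ⋃ α ∈ (Finset.univ : Finset (Fin n → Fin (D + 1))), V α := by
    rintro c ⟨hcS, f, hf, hfL, hflin⟩
    by_contra hcon
    rw [Set.mem_union, not_or] at hcon
    apply hflin
    refine linear_of_good (D := D) u t ht htL g c ?_ ?_ f (totalDegree_of_span g hg f hf) hf hfL
    · by_contra h1
      exact hcon.1 (by rw [hU]; exact ⟨hcS, h1⟩)
    · intro ws hws
      by_contra h1
      apply hcon.2
      obtain ⟨α, hα⟩ := perm_word ws hws
      rw [Set.mem_iUnion₂]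
      refine ⟨α, Finset.mem_univ _, ?_⟩
      rw [hV]
      refine ⟨hcS, ?_⟩
      rw [← fam_perm hα g]
      exact h1
  have hUf : U.Finite := by
    rw [hU]
    exact finite_grid S _
  have hVf : ∀ α, (V α).Finite := by
    intro α
    rw [hV]
    exact finite_grid S _
  have hUc : U.ncard ≤ (N + 1) * (2 ^ (n * r) * ((n * r).factorial *
      (D * (N + 1)) ^ (n * r - ((n - 1) * r + (N + 6)))) *
        S.card ^ ((n - 1) * r + (N + 6))) := by
    rw [hU]
    have h1 := good_count (m := (n - 1) * r + (N + 6)) (D := D) (SK.LgOf 𝕜)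
      (fun k => sub u t (g k)) (fun k => (totalDegree_sub u t (g k)).trans (hg k)) S hS
    rw [hcard] at h1
    exact h1
  have hVc : ∀ α, (V α).ncard ≤ (N + 1 + 1) * (2 ^ (n * r) * ((n * r).factorial *
      (D * (N + 1 + 1)) ^ (n * r - ((n - 1) * r + (N + 1)))) *
        S.card ^ ((n - 1) * r + (N + 1))) := by
    intro α
    rw [hV]
    have h1 := good_count (m := (n - 1) * r + (N + 1)) (D := D) (⊥ : Submodule 𝕜 ℂ)
      (fun k => sub u t (fam g (word fun i => (α i : ℕ)) k))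
      (fun k => (totalDegree_sub u t _).trans (totalDegree_fam _ g hg k)) S hS
    rw [hcard] at h1
    exact h1
  have hfin : (U ∪ ⋃ α ∈ (Finset.univ : Finset (Fin n → Fin (D + 1))), V α).Finite :=
    hUf.union (Set.Finite.biUnion (Finset.finite_toSet _) fun α _ => hVf α)
  refine (Set.ncard_le_ncard hsub hfin).trans ((Set.ncard_union_le _ _).trans ?_)
  refine Nat.add_le_add hUc ?_
  refine (Finset.set_ncard_biUnion_le _ _).trans ?_
  refine (Finset.sum_le_sum fun α _ => hVc α).trans (le_of_eq ?_)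
  rw [Finset.sum_const, smul_eq_mul, Finset.card_univ, Fintype.card_fun, Fintype.card_fin,
    Fintype.card_fin]

theorem exc_card {𝕜 : IntermediateField ℚ ℂ} [Algebra.IsAlgebraic ℚ 𝕜] {n r N D : ℕ}
    (u : Fin n → ℂ) (t : Fin n → Fin r → ℂ) (ht : ∀ i, LinearIndependent 𝕜 (t i)) (htL : ∀ i j, t i j ∈ SK.LzOf 𝕜)
    (g : Fin N → MvPolynomial (Fin n) ℂ) (hg : ∀ k, (g k).totalDegree ≤ D)
    (S : Finset 𝕜) (hS : S.Nonempty) :
    (exc u t g S).ncard * S.card ^ (r - (N + 6)) ≤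
      cst n r N * D ^ (n + (r - (N + 6))) * S.card ^ (n * r) := by
  classical
  have hcard : Fintype.card (Fin n × Fin r) = n * r := by
    rw [Fintype.card_prod, Fintype.card_fin, Fintype.card_fin]
  have hs1 : 1 ≤ S.card := hS.card_pos
  have htriv : (exc u t g S).ncard ≤ S.card ^ (n * r) := by
    have h1 := grid_card S (fun c : Fin n × Fin r → 𝕜 => ∃ f ∈ Submodule.span 𝕜 (Set.range g),
      eval (pt u t c) f ∈ SK.LgOf 𝕜 ∧
      ¬ ∃ (a : ℂ) (q : Fin n → 𝕜), f = C a + ∑ i, C (q i : ℂ) * X i)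
    rw [hcard] at h1
    exact h1
  have hcst : 1 ≤ cst n r N := Nat.le_add_left _ _
  -- constant polynomials are not exceptional
  have hzero : (D = 0 ∨ n = 0) → (exc u t g S).ncard = 0 := by
    intro h
    have h1 : exc u t g S = ∅ := by
      rw [Set.eq_empty_iff_forall_notMem]
      rintro c ⟨_, f, hf, _, hfl⟩
      apply hfl
      have h2 : ∃ a : ℂ, f = C a := by
        rcases h with h | h
        · have h3 := totalDegree_of_span g hg f hf
          rw [h] at h3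
          exact ⟨_, totalDegree_eq_zero_iff_eq_C.1 (Nat.le_zero.1 h3)⟩
        · subst h
          exact const_of_pderiv f fun i => i.elim0
      obtain ⟨a, ha⟩ := h2
      refine ⟨a, fun _ => 0, ?_⟩
      rw [ha]
      simp
    rw [h1, Set.ncard_empty]
  by_cases h0 : D = 0 ∨ n = 0
  · rw [hzero h0, zero_mul]
    exact Nat.zero_le _
  push Not at h0
  have hD1 : 1 ≤ D := Nat.one_le_iff_ne_zero.2 h0.1
  have hn1 : 1 ≤ n := Nat.one_le_iff_ne_zero.2 h0.2
  by_cases hSD : S.card ≤ D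
  · calc (exc u t g S).ncard * S.card ^ (r - (N + 6))
        ≤ S.card ^ (n * r) * D ^ (r - (N + 6)) :=
          Nat.mul_le_mul htriv (Nat.pow_le_pow_left hSD _)
      _ ≤ S.card ^ (n * r) * D ^ (n + (r - (N + 6))) :=
          Nat.mul_le_mul_left _ (Nat.pow_le_pow_right hD1 (Nat.le_add_left _ _))
      _ = 1 * D ^ (n + (r - (N + 6))) * S.card ^ (n * r) := by ring
      _ ≤ cst n r N * D ^ (n + (r - (N + 6))) * S.card ^ (n * r) :=
          Nat.mul_le_mul_right _ (Nat.mul_le_mul_right _ hcst)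
  by_cases he : r - (N + 6) = 0
  · rw [he, pow_zero, mul_one, add_zero]
    calc (exc u t g S).ncard ≤ S.card ^ (n * r) := htriv
      _ = 1 * 1 * S.card ^ (n * r) := by ring
      _ ≤ cst n r N * D ^ n * S.card ^ (n * r) :=
        Nat.mul_le_mul_right _ (Nat.mul_le_mul hcst (Nat.one_le_pow _ _ hD1))
  -- the main case
  obtain ⟨e, heq⟩ : ∃ e, r = N + 6 + e := ⟨r - (N + 6), by omega⟩
  have he1 : r - (N + 6) = e := by omega
  obtain ⟨n', rfl⟩ : ∃ n', n = n' + 1 := ⟨n - 1, by omega⟩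
  have hnr : (n' + 1) * r = n' * r + (N + 6) + e := by
    rw [add_mul, one_mul]
    omega
  have hm1 : (n' + 1) * r - ((n' + 1 - 1) * r + (N + 6)) = e := by
    rw [Nat.add_sub_cancel, hnr]
    omega
  have hm2 : (n' + 1) * r - ((n' + 1 - 1) * r + (N + 1)) = e + 5 := by
    rw [Nat.add_sub_cancel, hnr]
    omega
  have hraw := exc_raw u t ht htL g hg S hS
  rw [hm1, hm2, Nat.add_sub_cancel] at hraw
  rw [he1]
  obtain ⟨s, hs⟩ : ∃ s, s = S.card := ⟨_, rfl⟩
  rw [← hs] at hraw hs1 hSD ⊢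
  have hDs : D ≤ s := by omega
  have hD2 : D + 1 ≤ 2 * D := by omega
  obtain ⟨M, hM⟩ : ∃ M, M = (n' + 1) * r := ⟨_, rfl⟩
  have hMs : s ^ M = s ^ (n' * r + (N + 6)) * s ^ e := by
    rw [hM, hnr, pow_add]
  have hMs2 : s ^ M = s ^ (n' * r + (N + 1)) * s ^ 5 * s ^ e := by
    rw [hM, hnr, ← pow_add, ← pow_add]
    congr 1
  unfold cst
  rw [he1]
  rw [← hM] at hraw ⊢
  calc (exc u t g S).ncard * s ^ e
      ≤ ((N + 1) * (2 ^ M * (M.factorial * (D * (N + 1)) ^ e) * s ^ (n' * r + (N + 6))) +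
        (D + 1) ^ (n' + 1) * ((N + 1 + 1) * (2 ^ M * (M.factorial *
          (D * (N + 1 + 1)) ^ (e + 5)) * s ^ (n' * r + (N + 1))))) * s ^ e :=
        Nat.mul_le_mul_right _ hraw
    _ = (N + 1) * 2 ^ M * M.factorial * (N + 1) ^ e * D ^ e * s ^ M +
        (D + 1) ^ (n' + 1) * ((N + 2) * 2 ^ M * M.factorial * (N + 2) ^ (e + 5)) * D ^ e *
          (s ^ (n' * r + (N + 1)) * D ^ 5 * s ^ e) := by
        rw [hMs, mul_pow, mul_pow, pow_add D e 5]
        ring
    _ ≤ (N + 1) * 2 ^ M * M.factorial * (N + 1) ^ e * D ^ (n' + 1 + e) * s ^ M +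
        (2 ^ (n' + 1) * D ^ (n' + 1)) * ((N + 2) * 2 ^ M * M.factorial * (N + 2) ^ (e + 5)) *
          D ^ e * s ^ M := by
        refine Nat.add_le_add ?_ ?_
        · refine Nat.mul_le_mul_right _ (Nat.mul_le_mul_left _ ?_)
          exact Nat.pow_le_pow_right hD1 (Nat.le_add_left _ _)
        · refine Nat.mul_le_mul (Nat.mul_le_mul_right _ (Nat.mul_le_mul_right _ ?_)) ?_
          · rw [← mul_pow]
            exact Nat.pow_le_pow_left hD2 _
          · rw [hMs2]
            refine Nat.mul_le_mul_right _ (Nat.mul_le_mul_left _ ?_)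
            exact Nat.pow_le_pow_left hDs _
    _ = ((N + 1) * 2 ^ M * M.factorial * (N + 1) ^ e +
        2 ^ (n' + 1) * ((N + 2) * 2 ^ M * M.factorial * (N + 2) ^ (e + 5))) *
          D ^ (n' + 1 + e) * s ^ M := by
        rw [pow_add D (n' + 1) e]
        ring
    _ ≤ _ := by
        refine Nat.mul_le_mul_right _ (Nat.mul_le_mul_right _ ?_)
        exact Nat.le_succ _

end MP60829e.TW
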